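import Pool.Agent.Helper486.TP.NewtonLap
import Pool.Agent.H314.CS.Dist

/-!
# MP_19b229_an : measures with a Hölder continuous Newtonian potential
-/

set_option autoImplicit false

open MeasureTheory Filter Topology Metric Set
open scoped ENNReal NNReal ContDiff Laplacian

namespace Pool.Agent.Results.MP_19b229_an.HausdorffDominated

/-- Euclidean space `ℝ^N`. -/
abbrev E (N : ℕ) : Type := EuclideanSpace ℝ (Fin N)

/-- The fundamental solution of `-Δ` in `ℝ^N`, `N ≥ 2`. -/
noncomputable def Gam (N : ℕ) (x : E N) : ℝ :=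
  if N = 2 then -(2 * Real.pi)⁻¹ * Real.log ‖x‖
  else ((N : ℝ) * ((N : ℝ) - 2) * (volume (ball (0 : E N) 1)).toReal)⁻¹ * ‖x‖ ^ (2 - (N : ℝ))

/-- The Newtonian potential of the finite signed measure `μ`. -/
noncomputable def pot {N : ℕ} (μ : SignedMeasure (E N)) (x : E N) : ℝ :=
  ∫ y, Gam N (x - y) ∂(μ.toJordanDecomposition.posPart) -
    ∫ y, Gam N (x - y) ∂(μ.toJordanDecomposition.negPart)

/-- `μ` is a finite signed measure on `Ω`. -/
def On {N : ℕ} (Ω : Set (E N)) (μ : SignedMeasure (E N)) : Prop := μ.totalVariation Ωᶜ = 0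

/-- The potential of `μ` agrees almost everywhere in `Ω` with a function which is Hölder continuous
with exponent `β` on `Ω`. -/
def HolderPotential {N : ℕ} (Ω : Set (E N)) (β : ℝ) (μ : SignedMeasure (E N)) : Prop :=
  ∃ (v : E N → ℝ) (C : ℝ), (∀ x ∈ Ω, ∀ y ∈ Ω, |v x - v y| ≤ C * dist x y ^ β) ∧
    ∀ᵐ x, x ∈ Ω → pot μ x = v x

/-! ### kernels -/

/-- The properties of the kernel which are used. -/
structure Ker {N : ℕ} (G : E N → ℝ) (c : ℝ) : Prop where
  meas : Measurable G
  loc : ∀ R : ℝ, IntegrableOn G (ball 0 R)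
  pos : 0 < c
  fund : ∀ φ : E N → ℝ, ContDiff ℝ ∞ φ → HasCompactSupport φ → ∀ a : E N,
    ∫ x, G (x - a) * (Δ φ) x = -c * φ a

lemma cont_lap {N : ℕ} {φ : E N → ℝ} (hφ : ContDiff ℝ 2 φ) : Continuous (Δ φ) := by
  have : Δ φ = fun x => ∑ i, fderiv ℝ (fun y => fderiv ℝ φ y (stdOrthonormalBasis ℝ (E N) i)) x
    (stdOrthonormalBasis ℝ (E N) i) := by
    ext x; exact Pool.Agent.H314.CS.LL.laplacian_eq_sum_fderiv hφ x
  rw [this]
  refine continuous_finsetSum _ fun i _ => ?_
  exact ((Pool.Agent.H314.CS.LL.contDiff_dir hφ _).continuous_fderiv (by norm_num)).clm_apply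
    continuous_const

lemma lap_zero {N : ℕ} {φ : E N → ℝ} (hφ : ContDiff ℝ 2 φ) {x : E N} (hx : x ∉ tsupport φ) :
    (Δ φ) x = 0 := by
  rw [Pool.Agent.H314.CS.LL.laplacian_eq_sum_fderiv hφ]
  refine Finset.sum_eq_zero fun i _ => ?_
  have h1 : x ∉ tsupport (fun y => fderiv ℝ φ y (stdOrthonormalBasis ℝ (E N) i)) :=
    fun h => hx (tsupport_fderiv_apply_subset ℝ _ h)
  rw [fderiv_of_notMem_tsupport _ h1]
  rfl

lemma supp_lap {N : ℕ} {φ : E N → ℝ} (hφ : ContDiff ℝ 2 φ) (hc : HasCompactSupport φ) :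
    HasCompactSupport (Δ φ) :=
  HasCompactSupport.intro (K := tsupport φ) hc fun _ hx => lap_zero hφ hx

lemma int_lap {N : ℕ} {φ : E N → ℝ} (hφ : ContDiff ℝ 2 φ) (hs : HasCompactSupport φ) :
    ∫ X, (Δ φ) X = 0 := by
  have h := Pool.Agent.H314.CS.LL.green (E := E N) (v := fun _ => (1 : ℝ)) contDiff_const hφ hs
  have h0 : ∀ x : E N, (Δ (fun _ : E N => (1 : ℝ))) x = 0 := by
    intro x
    rw [Pool.Agent.H314.CS.LL.laplacian_eq_sum_fderiv (E := E N) contDiff_const]
    simp
  simp only [h0, one_mul, zero_mul, integral_zero] at h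
  exact h

lemma lap_comp {N : ℕ} {η : E N → ℝ} (hη : ContDiff ℝ 2 η) (k : ℝ) (x₀ x : E N) :
    (Δ (fun y => η (k • (y - x₀)))) x = k ^ 2 * (Δ η) (k • (x - x₀)) := by
  have hd : ∀ {g : E N → ℝ}, Differentiable ℝ g → ∀ y v : E N,
      fderiv ℝ (fun y => g (k • (y - x₀))) y v = k * fderiv ℝ g (k • (y - x₀)) v := by
    intro g hg y v
    have h1 : HasFDerivAt (fun y : E N => k • (y - x₀)) (k • ContinuousLinearMap.id ℝ (E N)) y :=
      ((hasFDerivAt_id y).sub_const x₀).const_smul k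
    have h2 := (hg (k • (y - x₀))).hasFDerivAt.comp y h1
    rw [show (fun y => g (k • (y - x₀))) = g ∘ fun y => k • (y - x₀) from rfl, h2.fderiv]
    simp
  have hc : ContDiff ℝ 2 (fun y => η (k • (y - x₀))) :=
    hη.comp (by fun_prop)
  rw [Pool.Agent.H314.CS.LL.laplacian_eq_sum_fderiv hc,
    Pool.Agent.H314.CS.LL.laplacian_eq_sum_fderiv hη, Finset.mul_sum]
  refine Finset.sum_congr rfl fun i _ => ?_
  set b := stdOrthonormalBasis ℝ (E N) i
  have e1 : (fun y => fderiv ℝ (fun y => η (k • (y - x₀))) y b)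
      = fun y => k * (fun z => fderiv ℝ η z b) (k • (y - x₀)) := by
    funext y
    exact hd (hη.differentiable (by norm_num)) y b
  rw [e1]
  have hg : Differentiable ℝ (fun z => fderiv ℝ η z b) :=
    (Pool.Agent.H314.CS.LL.contDiff_dir hη b).differentiable (by norm_num)
  have hg' : DifferentiableAt ℝ (fun y => (fun z => fderiv ℝ η z b) (k • (y - x₀))) x :=
    (hg.comp ((differentiable_id.sub_const x₀).const_smul k)) x
  rw [fderiv_const_mul hg']
  simp only [_root_.smul_apply, smul_eq_mul]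
  rw [hd hg x b]
  ring

lemma Ker.fubini {N : ℕ} {G : E N → ℝ} {c : ℝ} (hG : Ker G c) (ν : Measure (E N))
    [IsFiniteMeasure ν] {R : ℝ} (hν : ν (ball 0 R)ᶜ = 0) {φ : E N → ℝ} (hφ : ContDiff ℝ ∞ φ)
    (hc : HasCompactSupport φ) :
    Integrable (fun x => (∫ y, G (x - y) ∂ν) * (Δ φ) x) ∧
      ∫ x, (∫ y, G (x - y) ∂ν) * (Δ φ) x = -c * ∫ y, φ y ∂ν := by
  have hφ2 : ContDiff ℝ 2 φ := hφ.of_le (by norm_cast)
  have hL := cont_lap hφ2
  have hLs := supp_lap hφ2 hc
  obtain ⟨M, hM⟩ : ∃ M, ∀ x, ‖(Δ φ) x‖ ≤ M := hLs.exists_bound_of_continuous hL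
  obtain ⟨R1, hR1⟩ := hLs.isBounded.subset_ball 0
  have hint : Integrable (fun p : E N × E N => G (p.1 - p.2) * (Δ φ) p.1)
      ((volume : Measure (E N)).prod ν) := by
    have h1 : Integrable (fun p : E N × E N => (ball (0 : E N) (R1 + R)).indicator G p.1 * M)
        ((volume : Measure (E N)).prod ν) :=
      (((integrable_indicator_iff measurableSet_ball).2 (hG.loc _)).comp_fst ν).mul_const M
    have h2 : Integrable (fun p : E N × E N => G p.1 * (Δ φ) (p.1 + p.2))
        ((volume : Measure (E N)).prod ν) := by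
      refine Integrable.mono' h1.norm ?_ ?_
      · exact ((hG.meas.comp measurable_fst).mul
          (hL.measurable.comp (measurable_fst.add measurable_snd))).aestronglyMeasurable
      · have h3 : ∀ᵐ p ∂((volume : Measure (E N)).prod ν), p.2 ∈ ball (0 : E N) R := by
          have := (Measure.quasiMeasurePreserving_snd (μ := (volume : Measure (E N)))
            (ν := ν)).ae (p := fun y => y ∈ ball (0 : E N) R) (by
              rw [ae_iff]; exact hν)
          exact this
        filter_upwards [h3] with p hp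
        by_cases h : (Δ φ) (p.1 + p.2) = 0
        · rw [h, mul_zero, norm_zero]; exact norm_nonneg _
        · have h4 : p.1 + p.2 ∈ ball (0 : E N) R1 := hR1 (subset_tsupport _ h)
          have h5 : p.1 ∈ ball (0 : E N) (R1 + R) := by
            rw [mem_ball_zero_iff] at h4 hp ⊢
            calc ‖p.1‖ = ‖(p.1 + p.2) - p.2‖ := by rw [add_sub_cancel_right]
              _ ≤ ‖p.1 + p.2‖ + ‖p.2‖ := norm_sub_le _ _
              _ < R1 + R := by linarith
          rw [indicator_of_mem h5, norm_mul, norm_mul]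
          refine mul_le_mul_of_nonneg_left ?_ (norm_nonneg _)
          exact (hM _).trans (le_abs_self M)
    have h3 := (measurePreserving_sub_prod (μ := (volume : Measure (E N)))
      (ν := ν)).integrable_comp_of_integrable h2
    refine h3.congr (ae_of_all _ fun p => ?_)
    simp
  have e : ∀ x, (∫ y, G (x - y) ∂ν) * (Δ φ) x = ∫ y, G (x - y) * (Δ φ) x ∂ν :=
    fun x => (integral_mul_const _ _).symm
  simp only [e]
  refine ⟨hint.integral_prod_left, ?_⟩
  rw [integral_integral_swap hint]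
  simp only [hG.fund φ hφ hc, integral_const_mul]

/-- The basic estimate. -/
lemma Ker.estimate {N : ℕ} {G : E N → ℝ} {c : ℝ} (hG : Ker G c) (β C : ℝ) :
    ∃ K : ℝ, 0 ≤ K ∧ ∀ (P Q : Measure (E N)) (_ : IsFiniteMeasure P) (_ : IsFiniteMeasure Q) (R : ℝ)
      (_ : P (ball 0 R)ᶜ = 0) (_ : Q (ball 0 R)ᶜ = 0) (v : E N → ℝ) (Ω : Set (E N))
      (_ : ∀ x ∈ Ω, ∀ y ∈ Ω, |v x - v y| ≤ C * dist x y ^ β)
      (_ : ∀ᵐ x, x ∈ Ω → ∫ y, G (x - y) ∂P - ∫ y, G (x - y) ∂Q = v x) (x₀ : E N) (r : ℝ),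
      0 < r → 0 < β → closedBall x₀ (2 * r) ⊆ Ω →
      P.real (closedBall x₀ r) ≤ Q.real (closedBall x₀ (2 * r)) + K * r ^ ((N : ℝ) - 2 + β) := by
  let η : ContDiffBump (0 : E N) := ⟨1, 2, one_pos, one_lt_two⟩
  have hη : ContDiff ℝ 2 (η : E N → ℝ) := η.contDiff
  obtain ⟨M, hM⟩ : ∃ M, ∀ x, ‖(Δ (η : E N → ℝ)) x‖ ≤ M :=
    (supp_lap hη η.hasCompactSupport).exists_bound_of_continuous (cont_lap hη)
  have hM0 : 0 ≤ M := (norm_nonneg _).trans (hM 0)
  set V : ℝ := volume.real (ball (0 : E N) 1) with hV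
  have hV0 : 0 ≤ V := measureReal_nonneg
  refine ⟨c⁻¹ * (|C| * 2 ^ β * M * (2 ^ N * V)), by have := hG.pos; positivity, ?_⟩
  intro P Q _ _ R hP hQ v Ω hv ha x₀ r hr hβ hsub
  set φ : E N → ℝ := fun y => η (r⁻¹ • (y - x₀)) with hφd
  have hφ : ContDiff ℝ ∞ φ := η.contDiff.comp (by fun_prop)
  have hφ2 : ContDiff ℝ 2 φ := hφ.of_le (by norm_cast)
  have hn : ∀ y : E N, ‖r⁻¹ • (y - x₀)‖ = dist y x₀ / r := by
    intro y
    rw [norm_smul, dist_eq_norm, Real.norm_eq_abs, abs_of_pos (inv_pos.2 hr)]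
    field_simp
  have hz : ∀ y, 2 * r ≤ dist y x₀ → φ y = 0 := by
    intro y hy
    apply η.zero_of_le_dist
    rw [dist_zero_right, hn, le_div_iff₀ hr]
    exact hy
  have ho : ∀ y ∈ closedBall x₀ r, φ y = 1 := by
    intro y hy
    apply η.one_of_mem_closedBall
    rw [mem_closedBall_zero_iff, hn, div_le_iff₀ hr]
    rw [mem_closedBall] at hy
    change dist y x₀ ≤ 1 * r
    rw [one_mul]
    exact hy
  have hts : tsupport φ ⊆ closedBall x₀ (2 * r) := by
    refine closure_minimal ?_ isClosed_closedBall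
    intro y hy
    by_contra h
    rw [mem_closedBall, not_le] at h
    exact hy (hz y h.le)
  have hc : HasCompactSupport φ := (isCompact_closedBall x₀ (2 * r)).of_isClosed_subset
    (isClosed_tsupport φ) hts
  have hL : ∀ x, ‖(Δ φ) x‖ ≤ (closedBall x₀ (2 * r)).indicator (fun _ => r⁻¹ ^ 2 * M) x := by
    intro x
    by_cases hx : x ∈ closedBall x₀ (2 * r)
    · rw [indicator_of_mem hx, hφd, lap_comp hη, norm_mul, Real.norm_eq_abs (r⁻¹ ^ 2),
        abs_of_nonneg (by positivity)]
      exact mul_le_mul_of_nonneg_left (hM _) (by positivity)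
    · rw [indicator_of_notMem hx, lap_zero hφ2 fun h => hx (hts h), norm_zero]
  obtain ⟨i1, e1⟩ := hG.fubini P hP hφ hc
  obtain ⟨i2, e2⟩ := hG.fubini Q hQ hφ hc
  have hLi : Integrable (Δ φ) := (cont_lap hφ2).integrable_of_hasCompactSupport (supp_lap hφ2 hc)
  have key : ∫ x, ((∫ y, G (x - y) ∂P - ∫ y, G (x - y) ∂Q) - v x₀) * (Δ φ) x
      = -c * (∫ y, φ y ∂P - ∫ y, φ y ∂Q) := by
    have e3 : ∀ x, ((∫ y, G (x - y) ∂P - ∫ y, G (x - y) ∂Q) - v x₀) * (Δ φ) x
        = (∫ y, G (x - y) ∂P) * (Δ φ) x - (∫ y, G (x - y) ∂Q) * (Δ φ) x - v x₀ * (Δ φ) x :=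
      fun x => by ring
    simp only [e3]
    have i3 : Integrable (fun x => (∫ y, G (x - y) ∂P) * (Δ φ) x -
        (∫ y, G (x - y) ∂Q) * (Δ φ) x) := i1.sub i2
    rw [integral_sub i3 (hLi.const_mul _), integral_sub i1 i2, e1, e2,
      integral_const_mul, int_lap hφ2 hc]
    ring
  have hb : ‖∫ x, ((∫ y, G (x - y) ∂P - ∫ y, G (x - y) ∂Q) - v x₀) * (Δ φ) x‖ ≤
      ∫ x, (closedBall x₀ (2 * r)).indicator
        (fun _ => |C| * (2 * r) ^ β * (r⁻¹ ^ 2 * M)) x := by
    refine norm_integral_le_of_norm_le ?_ ?_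
    · rw [integrable_indicator_iff measurableSet_closedBall]
      exact integrableOn_const (by exact measure_closedBall_lt_top.ne)
    · filter_upwards [ha] with x hx
      by_cases h : x ∈ closedBall x₀ (2 * r)
      · have h1 := hL x
        rw [indicator_of_mem h] at h1 ⊢
        rw [hx (hsub h), norm_mul]
        refine mul_le_mul ?_ h1 (norm_nonneg _) (by positivity)
        refine (hv x (hsub h) x₀ (hsub (mem_closedBall_self (by positivity)))).trans ?_
        refine mul_le_mul (le_abs_self C) ?_ (by positivity) (abs_nonneg C)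
        exact Real.rpow_le_rpow dist_nonneg (mem_closedBall.1 h) hβ.le
      · have h1 := hL x
        rw [indicator_of_notMem h] at h1 ⊢
        rw [norm_mul, le_antisymm h1 (norm_nonneg _), mul_zero]
  rw [integral_indicator_const _ measurableSet_closedBall,
    Measure.addHaar_real_closedBall _ _ (by positivity), key, norm_mul, norm_neg,
    Real.norm_eq_abs c, abs_of_pos hG.pos, finrank_euclideanSpace_fin, smul_eq_mul] at hb
  have hcont : Continuous φ := hφ.continuous
  have hPi : Integrable φ P := hcont.integrable_of_hasCompactSupport hc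
  have hQi : Integrable φ Q := hcont.integrable_of_hasCompactSupport hc
  have p1 : P.real (closedBall x₀ r) ≤ ∫ y, φ y ∂P := by
    have h1 : ∫ y, (closedBall x₀ r).indicator (fun _ => (1 : ℝ)) y ∂P
        = P.real (closedBall x₀ r) := by
      rw [integral_indicator_const _ measurableSet_closedBall]; simp
    rw [← h1]
    refine integral_mono ?_ hPi fun y => ?_
    · exact (integrable_const _).indicator measurableSet_closedBall
    · by_cases h : y ∈ closedBall x₀ r
      · rw [indicator_of_mem h, ho y h]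
      · rw [indicator_of_notMem h]; exact η.nonneg
  have p2 : ∫ y, φ y ∂Q ≤ Q.real (closedBall x₀ (2 * r)) := by
    have h1 : ∫ y, (closedBall x₀ (2 * r)).indicator (fun _ => (1 : ℝ)) y ∂Q
        = Q.real (closedBall x₀ (2 * r)) := by
      rw [integral_indicator_const _ measurableSet_closedBall]; simp
    rw [← h1]
    refine integral_mono hQi ?_ fun y => ?_
    · exact (integrable_const _).indicator measurableSet_closedBall
    · by_cases h : y ∈ closedBall x₀ (2 * r)
      · rw [indicator_of_mem h]; exact η.le_one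
      · rw [indicator_of_notMem h, hz y]
        rw [mem_closedBall, not_le] at h
        exact h.le
  have p3 : ∫ y, φ y ∂P - ∫ y, φ y ∂Q ≤
      c⁻¹ * ((2 * r) ^ N * V * (|C| * (2 * r) ^ β * (r⁻¹ ^ 2 * M))) := by
    rw [inv_mul_eq_div, le_div_iff₀ hG.pos, mul_comm]
    refine le_trans ?_ hb
    exact mul_le_mul_of_nonneg_left (le_abs_self _) hG.pos.le
  have p4 : c⁻¹ * ((2 * r) ^ N * V * (|C| * (2 * r) ^ β * (r⁻¹ ^ 2 * M)))
      = c⁻¹ * (|C| * 2 ^ β * M * (2 ^ N * V)) * r ^ ((N : ℝ) - 2 + β) := by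
    rw [Real.rpow_add hr, Real.rpow_sub hr, Real.rpow_natCast, Real.rpow_two,
      Real.mul_rpow (by norm_num) hr.le, mul_pow]
    field_simp
  linarith

/-- The iteration. -/
lemma iterate {a : ℝ → ℝ} (hmono : Monotone a) (h0 : ∀ r, 0 ≤ a r) {K s θ ρ : ℝ} (hK : 0 ≤ K)
    (hρ : 0 < ρ) (hs : 0 < s) (hθ : θ * 2 ^ s ≤ 1 / 2)
    (h : ∀ r, 0 < r → r < ρ → a r ≤ K * r ^ s + θ * a (2 * r)) :
    ∃ ρ', 0 < ρ' ∧ ∀ r, 0 < r → r < ρ' → a r ≤ (2 * K + 1) * 2 ^ s * r ^ s := by
  set q : ℕ → ℝ := fun k => ρ * (1 / 2) ^ k with hq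
  have hqp : ∀ k, 0 < q k := fun k => by positivity
  have hq1 : ∀ k, 2 * q (k + 1) = q k := fun k => by simp only [hq, pow_succ]; ring
  have hind : ∀ k, a (q k) ≤ (2 * K + (a ρ / ρ ^ s) / 2 ^ k) * q k ^ s := by
    intro k
    induction k with
    | zero =>
      have : q 0 = ρ := by simp [hq]
      rw [this, pow_zero, div_one]
      have hp : 0 < ρ ^ s := Real.rpow_pos_of_pos hρ s
      have e : (2 * K + a ρ / ρ ^ s) * ρ ^ s = 2 * K * ρ ^ s + a ρ := by field_simp
      rw [e]
      have : 0 ≤ 2 * K * ρ ^ s := by positivity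
      linarith
    | succ k ih =>
      have hlt : q (k + 1) < ρ := by
        simp only [hq]
        have : ((1 : ℝ) / 2) ^ (k + 1) < 1 := pow_lt_one₀ (by norm_num) (by norm_num) (by omega)
        nlinarith
      have h1 := h (q (k + 1)) (hqp _) hlt
      rw [hq1] at h1
      have e2 : q k ^ s = 2 ^ s * q (k + 1) ^ s := by
        rw [← hq1, Real.mul_rpow (by norm_num) (hqp _).le]
      have hpos : 0 ≤ q (k + 1) ^ s := (Real.rpow_pos_of_pos (hqp _) s).le
      have hA : 0 ≤ (2 * K + (a ρ / ρ ^ s) / 2 ^ k) := by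
        have := h0 ρ
        positivity
      rcases le_or_gt 0 θ with hθ0 | hθ0
      · calc a (q (k + 1)) ≤ K * q (k + 1) ^ s + θ * a (q k) := h1
          _ ≤ K * q (k + 1) ^ s + θ * ((2 * K + (a ρ / ρ ^ s) / 2 ^ k) * q k ^ s) := by
              gcongr
          _ = K * q (k + 1) ^ s + (θ * 2 ^ s) * ((2 * K + (a ρ / ρ ^ s) / 2 ^ k) *
              q (k + 1) ^ s) := by rw [e2]; ring
          _ ≤ K * q (k + 1) ^ s + (1 / 2) * ((2 * K + (a ρ / ρ ^ s) / 2 ^ k) *
              q (k + 1) ^ s) := by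
              gcongr
          _ = (2 * K + (a ρ / ρ ^ s) / 2 ^ (k + 1)) * q (k + 1) ^ s := by
              rw [pow_succ]; field_simp; ring
      · have h2 : θ * a (q k) ≤ 0 := mul_nonpos_of_nonpos_of_nonneg hθ0.le (h0 _)
        have h3 : 0 ≤ (a ρ / ρ ^ s) / 2 ^ (k + 1) := by
          have := h0 ρ
          positivity
        nlinarith
  obtain ⟨k₀, hk₀⟩ : ∃ k₀ : ℕ, a ρ / ρ ^ s ≤ 2 ^ k₀ := by
    obtain ⟨n, hn⟩ := pow_unbounded_of_one_lt (a ρ / ρ ^ s) (one_lt_two)
    exact ⟨n, hn.le⟩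
  refine ⟨q k₀, hqp _, fun r hr hrq => ?_⟩
  have hrρ : r / ρ < (1 / 2) ^ k₀ := by
    rw [div_lt_iff₀ hρ, mul_comm]; exact hrq
  obtain ⟨k, hk1, hk2⟩ := exists_nat_pow_near_of_lt_one (x := r / ρ) (y := 1 / 2) (by positivity)
    (hrρ.le.trans (pow_le_one₀ (by norm_num) (by norm_num))) (by norm_num) (by norm_num)
  have hkk : k₀ ≤ k := by
    by_contra hcon
    rw [not_le] at hcon
    have : ((1 : ℝ) / 2) ^ k₀ ≤ (1 / 2) ^ (k + 1) :=
      pow_le_pow_of_le_one (by norm_num) (by norm_num) hcon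
    linarith
  have hr1 : r ≤ q k := by
    rw [div_le_iff₀ hρ, mul_comm] at hk2; exact hk2
  have hr2 : q k ≤ 2 * r := by
    rw [lt_div_iff₀ hρ] at hk1
    rw [← hq1]
    have : q (k + 1) = (1 / 2) ^ (k + 1) * ρ := by simp only [hq]; ring
    rw [this]; linarith
  have hone : (a ρ / ρ ^ s) / 2 ^ k ≤ 1 := by
    rw [div_le_one (by positivity)]
    exact hk₀.trans (pow_le_pow_right₀ (by norm_num) hkk)
  calc a r ≤ a (q k) := hmono hr1
    _ ≤ (2 * K + (a ρ / ρ ^ s) / 2 ^ k) * q k ^ s := hind k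
    _ ≤ (2 * K + 1) * (2 * r) ^ s := by
        have := (hqp k).le
        gcongr
    _ = (2 * K + 1) * 2 ^ s * r ^ s := by
        rw [Real.mul_rpow (by norm_num) hr.le]; ring

/-- Almost everywhere one of two mutually singular measures dominates at small scales. -/
lemma dens {N : ℕ} (P Q : Measure (E N)) [IsFiniteMeasure P] [IsFiniteMeasure Q] {S Ω : Set (E N)}
    (hS : MeasurableSet S) (hQS : Q Sᶜ = 0) (hΩ : IsOpen Ω) {K s : ℝ} (hK : 0 ≤ K) (hs : 0 < s)
    (hest : ∀ (x₀ : E N) (r : ℝ), 0 < r → closedBall x₀ (2 * r) ⊆ Ω →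
      P.real (closedBall x₀ r) ≤ Q.real (closedBall x₀ (2 * r)) + K * r ^ s) :
    ∀ᵐ x ∂(P + Q), x ∉ S → x ∈ Ω → ∃ ρ', 0 < ρ' ∧ ∀ r, 0 < r → r < ρ' →
      (P + Q).real (closedBall x r) ≤ (2 * K + 1) * 2 ^ s * r ^ s := by
  filter_upwards [Besicovitch.ae_tendsto_measure_inter_div_of_measurableSet (P + Q) hS]
    with x hx hxS hxΩ
  rw [indicator_of_notMem hxS] at hx
  set ε : ℝ := (4 * 2 ^ s)⁻¹ with hε
  have hε0 : 0 < ε := by positivity
  have h1 : ∀ᶠ r in 𝓝[>] (0 : ℝ), (P + Q) (S ∩ closedBall x r) / (P + Q) (closedBall x r) <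
      ENNReal.ofReal ε := hx.eventually (gt_mem_nhds (by simpa using hε0))
  obtain ⟨δ, hδ, h2⟩ := (mem_nhdsGT_iff_exists_Ioo_subset).1 h1
  have hδ0 : 0 < δ := hδ
  obtain ⟨ρ₀, hρ₀, hsub⟩ := Metric.isOpen_iff.1 hΩ x hxΩ
  have hQle : ∀ r, 0 < r → r < δ → Q.real (closedBall x r) ≤ ε * (P + Q).real (closedBall x r) := by
    intro r hr hrδ
    have h3 := (h2 ⟨hr, hrδ⟩ : (P + Q) (S ∩ closedBall x r) / (P + Q) (closedBall x r) <
      ENNReal.ofReal ε)
    have h4 : (P + Q) (S ∩ closedBall x r) ≤ ENNReal.ofReal ε * (P + Q) (closedBall x r) := by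
      rw [← ENNReal.div_le_iff_le_mul (Or.inr ENNReal.ofReal_ne_top)
        (Or.inr (by simpa using hε0))]
      exact h3.le
    have h5 : Q (closedBall x r) ≤ (P + Q) (S ∩ closedBall x r) := by
      calc Q (closedBall x r) ≤ Q (S ∩ closedBall x r) + Q Sᶜ := by
            refine (measure_mono ?_).trans (measure_union_le _ _)
            intro y hy
            by_cases h : y ∈ S
            · exact Or.inl ⟨h, hy⟩
            · exact Or.inr h
        _ = Q (S ∩ closedBall x r) := by rw [hQS, add_zero]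
        _ ≤ (P + Q) (S ∩ closedBall x r) := by
            rw [Measure.add_apply]; exact le_add_self
    have h6 := h5.trans h4
    rw [Measure.real, Measure.real, ← ENNReal.toReal_ofReal hε0.le, ← ENNReal.toReal_mul]
    exact ENNReal.toReal_mono (ENNReal.mul_ne_top ENNReal.ofReal_ne_top (measure_ne_top _ _)) h6
  refine iterate (a := fun r => (P + Q).real (closedBall x r)) ?_ (fun r => measureReal_nonneg)
    (θ := 2 * ε) (ρ := min (δ / 2) (ρ₀ / 4)) hK (by positivity) hs ?_ ?_
  · intro r r' h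
    exact measureReal_mono (closedBall_subset_closedBall h)
  · rw [hε]
    have : (0 : ℝ) < 2 ^ s := by positivity
    field_simp
    norm_num
  · intro r hr hrρ
    have hr1 : r < δ / 2 := hrρ.trans_le (min_le_left _ _)
    have hr2 : r < ρ₀ / 4 := hrρ.trans_le (min_le_right _ _)
    have h3 := hest x r hr ((closedBall_subset_ball (by linarith)).trans hsub)
    have h4 := hQle (2 * r) (by linarith) (by linarith)
    have h5 : Q.real (closedBall x r) ≤ Q.real (closedBall x (2 * r)) :=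
      measureReal_mono (closedBall_subset_closedBall (by linarith))
    have h6 : (P + Q).real (closedBall x r) = P.real (closedBall x r) + Q.real (closedBall x r) :=
      measureReal_add_apply
    change (P + Q).real (closedBall x r) ≤ K * r ^ s + 2 * ε * (P + Q).real (closedBall x (2 * r))
    rw [h6]
    linarith

/-- A bound for the upper density implies domination by the Hausdorff measure. -/
lemma haus {N : ℕ} (τ : Measure (E N)) [IsFiniteMeasure τ] {K s : ℝ} (hs : 0 < s)
    (h : ∀ᵐ x ∂τ, ∃ ρ', 0 < ρ' ∧ ∀ r, 0 < r → r < ρ' → τ.real (closedBall x r) ≤ K * r ^ s)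
    (A : Set (E N)) (hA : MeasurableSet A) :
    τ A ≤ ENNReal.ofReal (max K 1) * μH[s] A := by
  set K' : ℝ := max K 1 with hK'
  have hK1 : 0 < K' := lt_of_lt_of_le one_pos (le_max_right _ _)
  let F : ℕ → Set (E N) := fun n => {x | ∀ r : ℝ, 0 < r → r < 1 / ((n : ℝ) + 1) →
    τ (closedBall x r) ≤ ENNReal.ofReal (K' * r ^ s)}
  have hFm : Monotone F := by
    intro n m hnm x hx r hr hrm
    refine hx r hr (hrm.trans_le ?_)
    exact one_div_le_one_div_of_le (by positivity) (by exact_mod_cast Nat.succ_le_succ hnm)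
  have hFu : ∀ᵐ x ∂τ, x ∈ ⋃ n, F n := by
    filter_upwards [h] with x ⟨ρ, hρ, hx⟩
    obtain ⟨n, hn⟩ := exists_nat_one_div_lt hρ
    refine mem_iUnion.2 ⟨n, fun r hr hrn => ?_⟩
    have h1 := hx r hr (hrn.trans hn)
    rw [← ofReal_measureReal (μ := τ) (s := closedBall x r)]
    refine ENNReal.ofReal_le_ofReal (h1.trans ?_)
    exact mul_le_mul_of_nonneg_right (le_max_left _ _) (by positivity)
  have hF : ∀ n, τ.restrict (F n) ≤ ENNReal.ofReal K' • μH[s] := by
    intro n
    have hC0 : ENNReal.ofReal K' ≠ 0 := by simpa using hK1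
    have hCt : ENNReal.ofReal K' ≠ ⊤ := ENNReal.ofReal_ne_top
    have h1 : (ENNReal.ofReal K')⁻¹ • τ.restrict (F n) ≤ μH[s] := by
      refine Measure.le_hausdorffMeasure s _ (ENNReal.ofReal (1 / (2 * ((n : ℝ) + 1))))
        (by simp; positivity) fun t ht => ?_
      have h2 : (τ.restrict (F n)) t ≤ ENNReal.ofReal K' * ediam t ^ s := by
        refine (measure_mono subset_closure).trans ?_
        rw [Measure.restrict_apply isClosed_closure.measurableSet]
        rcases (closure t ∩ F n).eq_empty_or_nonempty with he | ⟨x, hxt, hxF⟩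
        · rw [he]; simp
        · have hdt : ediam t ≠ ⊤ := ne_top_of_le_ne_top ENNReal.ofReal_ne_top ht
          set d : ℝ := (ediam t).toReal with hd
          have hd0 : 0 ≤ d := ENNReal.toReal_nonneg
          have hde : ediam t = ENNReal.ofReal d := (ENNReal.ofReal_toReal hdt).symm
          have hdlt : d < 1 / ((n : ℝ) + 1) := by
            have h3 : d ≤ 1 / (2 * ((n : ℝ) + 1)) := by
              rw [hd]
              exact ENNReal.toReal_le_of_le_ofReal (by positivity) ht
            refine h3.trans_lt ?_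
            rw [one_div_lt_one_div (by positivity) (by positivity)]
            have : (0 : ℝ) < (n : ℝ) + 1 := by positivity
            linarith
          have hsubset : ∀ r, d ≤ r → closure t ∩ F n ⊆ closedBall x r := by
            intro r hr y hy
            rw [mem_closedBall]
            have h4 : edist y x ≤ ediam (closure t) := Metric.edist_le_ediam_of_mem hy.1 hxt
            rw [Metric.ediam_closure, hde, edist_dist] at h4
            exact ((ENNReal.ofReal_le_ofReal_iff hd0).1 h4).trans hr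
          have h5 : ∀ r, d < r → r < 1 / ((n : ℝ) + 1) →
              τ (closure t ∩ F n) ≤ ENNReal.ofReal (K' * r ^ s) := fun r hr1 hr2 =>
            (measure_mono (hsubset r hr1.le)).trans (hxF r (hd0.trans_lt hr1) hr2)
          have h6 : Tendsto (fun r : ℝ => ENNReal.ofReal (K' * r ^ s)) (𝓝[>] d)
              (𝓝 (ENNReal.ofReal (K' * d ^ s))) := by
            refine (ENNReal.continuous_ofReal.tendsto _).comp ?_
            refine Tendsto.mono_left ?_ nhdsWithin_le_nhds
            exact ((Real.continuousAt_rpow_const d s (Or.inr hs.le)).tendsto).const_mul K'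
          have h7 : τ (closure t ∩ F n) ≤ ENNReal.ofReal (K' * d ^ s) := by
            refine ge_of_tendsto h6 ?_
            filter_upwards [Ioo_mem_nhdsGT hdlt] with r hr
            exact h5 r hr.1 hr.2
          rw [hde, ENNReal.ofReal_rpow_of_nonneg hd0 hs.le, ← ENNReal.ofReal_mul hK1.le]
          exact h7
      rw [Measure.smul_apply, smul_eq_mul, ENNReal.inv_mul_le_iff hC0 hCt]
      exact h2
    intro t
    have h2 := h1 t
    rw [Measure.smul_apply, smul_eq_mul, ENNReal.inv_mul_le_iff hC0 hCt] at h2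
    rw [Measure.smul_apply, smul_eq_mul]
    exact h2
  have h8 : τ A = ⨆ n, τ (A ∩ F n) := by
    rw [← Directed.measure_iUnion, ← inter_iUnion]
    · refine measure_congr ?_
      filter_upwards [hFu] with x hx
      exact propext ⟨fun ha => ⟨ha, hx⟩, fun ha => ha.1⟩
    · exact directed_of_isDirected_le fun n m hnm => inter_subset_inter_right _ (hFm hnm)
  rw [h8]
  refine iSup_le fun n => ?_
  rw [← Measure.restrict_apply hA]
  exact hF n A

/-- The statement for one kernel and a pair of mutually singular measures. -/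
lemma Ker.main {N : ℕ} (hN : 2 ≤ N) {G : E N → ℝ} {c : ℝ} (hG : Ker G c) {β C : ℝ} (hβ : 0 < β)
    (P Q : Measure (E N)) [IsFiniteMeasure P] [IsFiniteMeasure Q] (hPQ : P ⟂ₘ Q) {Ω : Set (E N)}
    (hΩ : IsOpen Ω) (hb : Bornology.IsBounded Ω) (hP : P Ωᶜ = 0) (hQ : Q Ωᶜ = 0) {v : E N → ℝ}
    (hv : ∀ x ∈ Ω, ∀ y ∈ Ω, |v x - v y| ≤ C * dist x y ^ β)
    (ha : ∀ᵐ x, x ∈ Ω → ∫ y, G (x - y) ∂P - ∫ y, G (x - y) ∂Q = v x) :
    ∃ K : ℝ≥0, ∀ A : Set (E N), MeasurableSet A →
      (P + Q) A ≤ K * μH[(N : ℝ) - 2 + β] A := by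
  obtain ⟨K, hK0, hK⟩ := hG.estimate β C
  have hs : 0 < (N : ℝ) - 2 + β := by
    have : (2 : ℝ) ≤ N := by exact_mod_cast hN
    linarith
  obtain ⟨R, hR⟩ := hb.subset_ball 0
  have hPR : P (ball 0 R)ᶜ = 0 := measure_mono_null (compl_subset_compl.2 hR) hP
  have hQR : Q (ball 0 R)ᶜ = 0 := measure_mono_null (compl_subset_compl.2 hR) hQ
  obtain ⟨S, hSm, hPS, hQS⟩ := hPQ
  have h1 := dens P Q hSm hQS hΩ hK0 hs fun x₀ r hr hsub =>
    hK P Q inferInstance inferInstance R hPR hQR v Ω hv ha x₀ r hr hβ hsub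
  have h2 := dens Q P hSm.compl (by rw [compl_compl]; exact hPS) hΩ hK0 hs fun x₀ r hr hsub =>
    hK Q P inferInstance inferInstance R hQR hPR (fun x => -v x) Ω
      (fun x hx y hy => by
        rw [show -v x - -v y = -(v x - v y) by ring, abs_neg]
        exact hv x hx y hy)
      (by
        filter_upwards [ha] with x hx hxΩ
        rw [← hx hxΩ]; ring) x₀ r hr hβ hsub
  rw [add_comm Q P] at h2
  have h3 : ∀ᵐ x ∂(P + Q), x ∈ Ω := by
    rw [ae_iff]
    change (P + Q) Ωᶜ = 0
    rw [Measure.add_apply, hP, hQ, add_zero]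
  refine ⟨Real.toNNReal (max ((2 * K + 1) * 2 ^ ((N : ℝ) - 2 + β)) 1), fun A hA => ?_⟩
  have h4 := haus (P + Q) hs (K := (2 * K + 1) * 2 ^ ((N : ℝ) - 2 + β)) (by
    filter_upwards [h1, h2, h3] with x a1 a2 a3
    by_cases hx : x ∈ S
    · exact a2 (fun h => h hx) a3
    · exact a1 hx a3) A hA
  exact h4

lemma ker_two : Ker (Gam 2) 1 where
  meas := by
    unfold Gam
    simp only [if_true]
    exact (Real.measurable_log.comp measurable_norm).const_mul _
  loc R := by
    have h1 : IntegrableOn (fun z : E 2 => Real.log ‖z‖) (ball 0 R) :=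
      ((locallyIntegrable_iff.mp Pool.Agent.H314.CS.LL.locInt_log0) (closedBall 0 R)
        (isCompact_closedBall _ _)).mono_set ball_subset_closedBall
    unfold Gam
    simp only [if_true]
    exact h1.const_mul _
  pos := one_pos
  fund φ hφ hc a := by
    unfold Gam
    simp only [if_true, mul_assoc]
    rw [integral_const_mul, Pool.Agent.H314.CS.log_translate a (hφ.of_le (by norm_cast)) hc]
    have := Real.pi_pos
    field_simp

lemma ker_three {N : ℕ} (hN : 3 ≤ N) : ∃ c, Ker (Gam N) c := by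
  obtain ⟨c, hc, h⟩ := Pool.Agent.Helper486.TP.newton_laplacian hN
  have : Nonempty (Fin N) := ⟨⟨0, by omega⟩⟩
  have hN3 : (3 : ℝ) ≤ N := by exact_mod_cast hN
  set κ : ℝ := ((N : ℝ) * ((N : ℝ) - 2) * (volume (ball (0 : E N) 1)).toReal)⁻¹ with hκ
  have hV : 0 < (volume (ball (0 : E N) 1)).toReal :=
    ENNReal.toReal_pos (measure_ball_pos _ _ one_pos).ne' measure_ball_lt_top.ne
  have hκ0 : 0 < κ := by
    apply inv_pos.2
    apply mul_pos (mul_pos (by linarith) (by linarith)) hV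
  have hG : ∀ x : E N, Gam N x = κ * ‖x‖ ^ (2 - (N : ℝ)) := by
    intro x
    unfold Gam
    rw [if_neg (by omega)]
  refine ⟨κ * c, ⟨?_, ?_, mul_pos hκ0 hc, ?_⟩⟩
  · simp only [funext hG]
    exact (measurable_norm.pow_const _).const_mul _
  · intro R
    have h1 := Pool.Agent.Helper486.TP.rpow_intOn hN R
    simp only [funext hG]
    refine Integrable.const_mul ?_ _
    refine h1.congr_fun (fun y _ => ?_) measurableSet_ball
    simp only [neg_sub]
  · intro φ hφ hcs a
    have e : ∀ᵐ x : E N, Gam N (x - a) * (Δ φ) x =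
        κ * ((Pool.Agent.Helper486.TP.newton a x).toReal * (Δ φ) x) := by
      have h0 : ∀ᵐ y : E N, y ≠ a := by
        rw [ae_iff]; simp
      filter_upwards [h0] with x hx
      rw [hG, Pool.Agent.Helper486.TP.newton_toReal hN a x hx, neg_sub]
      ring
    rw [integral_congr_ae e, integral_const_mul, h φ hφ hcs a]
    ring

/-- **Main result.** A finite signed measure on a bounded open set `Ω ⊆ ℝ^N` whose Newtonian
potential agrees a.e. in `Ω` with a function which is Hölder continuous with exponent `β` on `Ω` is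
dominated by a constant times the Hausdorff measure of dimension `N - 2 + β`. In particular it is
the strong limit of measures `μ_n` on `Ω` with `|μ_n| ≤ n H^{N - 2 + β}` for every `n`. -/
theorem result : ∀ N : ℕ, 2 ≤ N → ∀ Ω : Set (E N), IsOpen Ω → Bornology.IsBounded Ω →
    ∀ β : ℝ, 0 < β → β < 1 → ∀ μ : SignedMeasure (E N), On Ω μ → HolderPotential Ω β μ →
      (∃ C : ℝ≥0, ∀ A : Set (E N), MeasurableSet A →
        μ.totalVariation A ≤ C * μH[(N : ℝ) - 2 + β] A) ∧
      ∃ μs : ℕ → SignedMeasure (E N), (∀ n, On Ω (μs n)) ∧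
        Tendsto (fun n => (μs n - μ).totalVariation univ) atTop (𝓝 0) ∧
        ∀ n (A : Set (E N)), MeasurableSet A → A ⊆ Ω →
          (μs n).totalVariation A ≤ n * μH[(N : ℝ) - 2 + β] A := by
  intro N hN Ω hΩ hb β hβ _ μ hμ hH
  obtain ⟨v, C, hv, ha⟩ := hH
  obtain ⟨c, hG⟩ : ∃ c, Ker (Gam N) c := by
    rcases Nat.lt_or_ge N 3 with h | h
    · have : N = 2 := by omega
      subst this
      exact ⟨1, ker_two⟩
    · exact ker_three h
  have hsum : μ.toJordanDecomposition.posPart Ωᶜ + μ.toJordanDecomposition.negPart Ωᶜ = 0 := hμ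
  obtain ⟨hP, hQ⟩ := add_eq_zero.1 hsum
  obtain ⟨K, hK⟩ := hG.main hN hβ μ.toJordanDecomposition.posPart μ.toJordanDecomposition.negPart
    μ.toJordanDecomposition.mutuallySingular hΩ hb hP hQ hv ha
  have hK' : ∀ A : Set (E N), MeasurableSet A →
      μ.totalVariation A ≤ K * μH[(N : ℝ) - 2 + β] A := hK
  refine ⟨⟨K, hK'⟩, fun n => if K ≤ n then μ else 0, fun n => ?_, ?_, fun n A hA _ => ?_⟩
  · by_cases h : K ≤ n
    · simp only [h, if_true]; exact hμ
    · simp only [h, if_false]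
      unfold On
      rw [SignedMeasure.totalVariation_zero]; rfl
  · refine tendsto_const_nhds.congr' ?_
    obtain ⟨m, hm⟩ := exists_nat_ge K
    filter_upwards [eventually_ge_atTop m] with n hn
    have : K ≤ n := hm.trans (by exact_mod_cast hn)
    simp only [this, if_true, sub_self]
    rw [SignedMeasure.totalVariation_zero]; rfl
  · by_cases h : K ≤ n
    · simp only [h, if_true]
      refine (hK' A hA).trans ?_
      have : (K : ℝ≥0∞) ≤ n := by exact_mod_cast h
      gcongr
    · simp only [h, if_false]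
      rw [SignedMeasure.totalVariation_zero]
      simp

end Pool.Agent.Results.MP_19b229_an.HausdorffDominated
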